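import Mathlib
import Pool.Agent.H710R2.DP.Defs
import Pool.Agent.H710R2.DP.Defs2
import Pool.Agent.H710R2.DP.Tasks

open scoped ComplexOrder InnerProductSpace ComplexConjugate
open Finset

noncomputable section

namespace H710R2.DP

open H759R2.Kad

namespace ZZ1

variable {A : Type} [CStarAlgebra A] [PartialOrder A] [StarOrderedRing A]

/-- the algebra of one binary digit -/
theorem core {x e : A} {r : ℝ} (hx0 : 0 ≤ x) (hxr : x ≤ algebraMap ℝ A r)
    (he1 : star e = e) (he2 : e * e = e)
    (he3 : e * (x - algebraMap ℝ A (r / 2))⁺ = (x - algebraMap ℝ A (r / 2))⁺)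
    (he4 : (x - algebraMap ℝ A (r / 2))⁻ * e = 0) (hc : x * e = e * x) :
    0 ≤ x - (r / 2) • e ∧ x - (r / 2) • e ≤ algebraMap ℝ A (r / 2) := by
  set k : A := x - algebraMap ℝ A (r / 2) with hk
  have hxs : IsSelfAdjoint x := IsSelfAdjoint.of_nonneg hx0
  have hks : IsSelfAdjoint k := by
    rw [hk]
    exact hxs.sub (IsSelfAdjoint.algebraMap A (by rfl))
  have hb0 : 0 ≤ k⁺ := CFC.posPart_nonneg k
  have hn0 : 0 ≤ k⁻ := CFC.negPart_nonneg k
  have hdec : k⁺ - k⁻ = k := CFC.posPart_sub_negPart k hks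
  have hns : star k⁻ = k⁻ := IsSelfAdjoint.of_nonneg hn0
  have hbs : star k⁺ = k⁺ := IsSelfAdjoint.of_nonneg hb0
  have hen : e * k⁻ = 0 := by
    have := congrArg star he4
    rwa [star_mul, he1, hns, star_zero] at this
  have hbe : k⁺ * e = k⁺ := by
    have := congrArg star he3
    rwa [star_mul, he1, hbs] at this
  -- `e k = k⁺`
  have hek : e * k = k⁺ := by
    rw [← hdec, mul_sub, hen, sub_zero, hdec, he3]
  have hfs : star (1 - e) = 1 - e := by rw [star_sub, star_one, he1]
  have hff : (1 - e) * (1 - e) = 1 - e := by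
    have : (1 - e) * (1 - e) = 1 - e - e + e * e := by noncomm_ring
    rw [this, he2]; abel
  have hexe : e * x = e * x * e := by
    rw [mul_assoc, hc, ← mul_assoc, he2]
  have hfx : (1 - e) * x = (1 - e) * x * (1 - e) := by
    have : (1 - e) * x * (1 - e) = x - e * x - x * e + e * x * e := by noncomm_ring
    rw [this, ← hexe, hc, sub_mul, one_mul]
    abel
  have hfx0 : 0 ≤ (1 - e) * x := by
    rw [hfx]
    have := star_left_conjugate_nonneg hx0 (1 - e)
    rwa [hfs] at this
  have hek2 : e * k = e * x - (r / 2) • e := by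
    rw [hk, mul_sub, ← Algebra.commutes, ← Algebra.smul_def]
  have hxe : x - (r / 2) • e = k⁺ + (1 - e) * x := by
    rw [← hek, hek2, sub_mul, one_mul]
    abel
  refine ⟨?_, ?_⟩
  · rw [hxe]
    exact add_nonneg hb0 hfx0
  · -- `k⁺ ≤ (r/2) e` and `(1-e) x ≤ (r/2) (1-e)`
    have h1 : k⁺ ≤ (r / 2) • e := by
      have h2 := star_left_conjugate_le_conjugate hxr e
      rw [he1, ← hexe, ← Algebra.commutes r e, mul_assoc (algebraMap ℝ A r), he2,
        ← Algebra.smul_def] at h2
      rw [← hek, hek2]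
      have h3 : e * x - (r / 2) • e ≤ r • e - (r / 2) • e := sub_le_sub_right h2 _
      refine h3.trans_eq ?_
      rw [← sub_smul]
      congr 1
      ring
    have h2 : (1 - e) * x ≤ (r / 2) • (1 - e) := by
      have h3 : (1 - e) * k = - k⁻ := by
        rw [sub_mul, one_mul, hek]
        nth_rewrite 1 [← hdec]
        abel
      have h4 : (1 - e) * k = (1 - e) * x - (r / 2) • (1 - e) := by
        rw [hk, mul_sub, ← Algebra.commutes (r / 2) (1 - e), ← Algebra.smul_def]
      rw [← sub_nonpos, ← h4, h3]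
      exact neg_nonpos.mpr hn0
    rw [hxe, Algebra.algebraMap_eq_smul_one]
    calc k⁺ + (1 - e) * x ≤ (r / 2) • e + (r / 2) • (1 - e) := add_le_add h1 h2
      _ = (r / 2) • (1 : A) := by rw [← smul_add]; congr 1; abel

end ZZ1

theorem dp_bin (h : F_range.{0}) : Z_bin := by
  intro H _ _ _ M x r hxM hx0 hxr
  have hxs : IsSelfAdjoint x := IsSelfAdjoint.of_nonneg hx0
  set k : H →L[ℂ] H := x - algebraMap ℝ (H →L[ℂ] H) (r / 2) with hk
  have hks : IsSelfAdjoint k := by
    rw [hk]
    exact hxs.sub (IsSelfAdjoint.algebraMap _ (by rfl))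
  have hcomm : ∀ y : H →L[ℂ] H, y * x = x * y → y * k⁺ = k⁺ * y := by
    intro y hy
    have h1 : Commute k y := by
      show k * y = y * k
      rw [hk, sub_mul, mul_sub, hy, Algebra.commutes]
    have h2 : Commute k⁺ y := by
      rw [CFC.posPart_def]
      exact hks.commute_cfcₙ h1 _
    exact h2.eq.symm
  have hbM : k⁺ ∈ M := by
    rw [← M.commutant_commutant, VonNeumannAlgebra.mem_commutant_iff]
    intro y hy
    rw [VonNeumannAlgebra.mem_commutant_iff] at hy
    exact hcomm y (hy x hxM).symm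
  obtain ⟨e, heM, ⟨he1, he2⟩, he3, he4⟩ := h H M k⁺ hbM
  have hbs : star k⁺ = k⁺ := IsSelfAdjoint.of_nonneg (CFC.posPart_nonneg k)
  have hbe : k⁺ * e = k⁺ := by
    have := congrArg star he3
    rwa [star_mul, he1, hbs] at this
  have hce : ∀ y : H →L[ℂ] H, y * x = x * y → y * e = e * y * e := by
    intro y hy
    have h1 : (y - e * y) * k⁺ = 0 := by
      rw [sub_mul, mul_assoc e, hcomm y hy, ← mul_assoc, he3, sub_self]
    have h2 := he4 _ h1
    rw [sub_mul] at h2
    exact sub_eq_zero.mp h2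
  have hce' : ∀ y : H →L[ℂ] H, y * x = x * y → y * e = e * y := by
    intro y hy
    have h1 := hce y hy
    have h2 := hce (star y) (by
      have := congrArg star hy
      rw [star_mul, star_mul, hxs.star_eq] at this
      exact this.symm)
    have h3 := congrArg star h2
    rw [star_mul, star_mul, star_mul, he1, star_star] at h3
    rw [h1, mul_assoc, ← h3]
  refine ⟨e, heM, ⟨he1, he2⟩, hce', ?_⟩
  exact ZZ1.core hx0 hxr he1 he2 he3 (he4 _ (CFC.negPart_mul_posPart k)) (hce' x rfl)

end H710R2.DP
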