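import Mathlib
import Pool.Agent.H710R2.DP.Defs
import Pool.Agent.H710R2.DP.Defs2
import Pool.Agent.H710R2.DP.Tasks
import Pool.Agent.H710R2.DP.VTasks

open scoped ComplexOrder InnerProductSpace ComplexConjugate
open Finset

noncomputable section

namespace H710R2.DP

open H759R2.Kad

namespace ZV04

variable {H : Type} [NormedAddCommGroup H] [InnerProductSpace ℂ H] [CompleteSpace H]

/-- `x` is an average of conjugates of `a` by unitary elements of `M` -/
def Av (M : VonNeumannAlgebra H) (a x : H →L[ℂ] H) : Prop :=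
  ∃ (ι : Type) (_ : Fintype ι) (_ : Nonempty ι) (g : ι → (H →L[ℂ] H)),
    (∀ k, g k ∈ M ∧ g k * star (g k) = 1 ∧ star (g k) * g k = 1) ∧
    x = (Fintype.card ι : ℂ)⁻¹ • ∑ i, g i * a * star (g i)

theorem smul_mem' (M : VonNeumannAlgebra H) (c : ℂ) {x : H →L[ℂ] H} (hx : x ∈ M) : c • x ∈ M :=
  M.toStarSubalgebra.smul_mem hx c

theorem Av.refl (M : VonNeumannAlgebra H) (a : H →L[ℂ] H) : Av M a a := by
  refine ⟨Unit, inferInstance, inferInstance, fun _ => 1, fun _ => ⟨one_mem M, ?_, ?_⟩, ?_⟩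
  · rw [star_one, mul_one]
  · rw [star_one, mul_one]
  · simp

theorem Av.step {M : VonNeumannAlgebra H} {a x u : H →L[ℂ] H} (h : Av M a x) (huM : u ∈ M)
    (hu : star u = u) (huu : u * u = 1) : Av M a ((1 / 2 : ℂ) • (x + u * x * u)) := by
  obtain ⟨ι, hι, hn, g, hg, hx⟩ := h
  refine ⟨ι ⊕ ι, inferInstance, inferInstance, Sum.elim g (fun i => u * g i), ?_, ?_⟩
  · rintro (i | i)
    · exact hg i
    · obtain ⟨h1, h2, h3⟩ := hg i
      refine ⟨mul_mem huM h1, ?_, ?_⟩
      · show u * g i * star (u * g i) = 1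
        rw [star_mul, hu]
        calc u * g i * (star (g i) * u) = u * (g i * star (g i)) * u := by noncomm_ring
          _ = 1 := by rw [h2, mul_one, huu]
      · show star (u * g i) * (u * g i) = 1
        rw [star_mul, hu]
        calc star (g i) * u * (u * g i) = star (g i) * (u * u) * g i := by noncomm_ring
          _ = 1 := by rw [huu, mul_one, h3]
  · rw [Fintype.sum_sum_type, Fintype.card_sum]
    simp only [Sum.elim_inl, Sum.elim_inr]
    have e1 : ∑ i, u * g i * a * star (u * g i) = u * (∑ i, g i * a * star (g i)) * u := by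
      rw [Finset.mul_sum, Finset.sum_mul]
      apply Finset.sum_congr rfl
      intro i _
      rw [star_mul, hu]
      noncomm_ring
    rw [e1]
    have hc : (Fintype.card ι : ℂ) ≠ 0 := by
      have : 0 < Fintype.card ι := Fintype.card_pos
      exact_mod_cast this.ne'
    set S := ∑ i, g i * a * star (g i) with hS
    rw [hx]
    have e2 : u * ((Fintype.card ι : ℂ)⁻¹ • S) * u = (Fintype.card ι : ℂ)⁻¹ • (u * S * u) := by
      rw [mul_smul_comm, smul_mul_assoc]
    rw [e2, ← smul_add, smul_smul]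
    congr 1
    push_cast
    field_simp
    ring

theorem iter (h : V_step) (M : VonNeumannAlgebra H) {x : H →L[ℂ] H} (hxM : x ∈ M)
    (hx : IsSelfAdjoint x) (k : ℕ) :
    ∃ y z : H →L[ℂ] H, Av M x y ∧ y ∈ M ∧ IsSelfAdjoint y ∧ IsCen M z ∧ IsSelfAdjoint z ∧
      ‖y - z‖ ≤ (3 / 4) ^ k * ‖x‖ := by
  induction k with
  | zero =>
    refine ⟨x, 0, Av.refl M x, hxM, hx, ⟨zero_mem M, fun a _ => by rw [zero_mul, mul_zero]⟩,
      IsSelfAdjoint.zero _, ?_⟩
    rw [sub_zero, pow_zero, one_mul]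
  | succ k ih =>
    obtain ⟨y, z, h1, h2, h3, h4, h5, h6⟩ := ih
    obtain ⟨u, huM, hu1, hu2, z₁, hz1, hz2, hz3⟩ := h H M y z _ h2 h3 h4 h5 h6
    refine ⟨_, z₁, h1.step huM hu1 hu2, ?_, ?_, hz1, hz2, ?_⟩
    · exact smul_mem' M _ (add_mem h2 (mul_mem (mul_mem huM h2) huM))
    · have h7 : IsSelfAdjoint (y + u * y * u) := by
        apply h3.add
        have := h3.conjugate u
        rwa [hu1] at this
      have h8 : IsSelfAdjoint ((1 / 2 : ℝ) • (y + u * y * u)) :=
        IsSelfAdjoint.smul (IsSelfAdjoint.all _) h7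
      have h9 : (1 / 2 : ℂ) • (y + u * y * u) = (1 / 2 : ℝ) • (y + u * y * u) := by
        rw [← Complex.coe_smul (1 / 2 : ℝ)]
        congr 1
        push_cast
        norm_num
      rw [h9]
      exact h8
    · have e5 : (3 / 4 : ℝ) ^ (k + 1) * ‖x‖ = 3 / 4 * ((3 / 4) ^ k * ‖x‖) := by ring
      rw [e5]
      exact hz3

end ZV04

theorem dp_Vdix (h : V_step) : V_dix.{0} := by
  intro H _ _ _ M x hxM hx ε hε
  obtain ⟨k, hk⟩ : ∃ k : ℕ, (3 / 4 : ℝ) ^ k * ‖x‖ ≤ ε := by
    have h1 : Filter.Tendsto (fun k : ℕ => (3 / 4 : ℝ) ^ k * ‖x‖) Filter.atTop (nhds (0 * ‖x‖)) :=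
      (tendsto_pow_atTop_nhds_zero_of_lt_one (by norm_num) (by norm_num)).mul_const _
    rw [zero_mul] at h1
    exact (h1.eventually_le_const hε).exists
  obtain ⟨y, z, ⟨ι, _, _, g, hg, hy⟩, -, -, hz1, hz2, hz3⟩ := ZV04.iter h M hxM hx k
  obtain ⟨N, hN⟩ : ∃ N, Fintype.card ι = N + 1 :=
    ⟨Fintype.card ι - 1, by have : 0 < Fintype.card ι := Fintype.card_pos; omega⟩
  have eq : ι ≃ Fin (N + 1) := Fintype.equivFinOfCardEq hN
  refine ⟨N, fun i => g (eq.symm i), z, fun i => hg (eq.symm i), hz1, hz2, ?_⟩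
  have e6 : ∑ i, g (eq.symm i) * x * star (g (eq.symm i)) = ∑ i, g i * x * star (g i) :=
    Equiv.sum_comp eq.symm (fun i => g i * x * star (g i))
  have e7 : ((N : ℂ) + 1) = (Fintype.card ι : ℂ) := by rw [hN]; push_cast; rfl
  simp only
  rw [e6, e7, ← hy]
  exact hz3.trans hk

end H710R2.DP
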